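import Mathlib
import Pool.Agent.H54.G.W237.RK.Defs
import Pool.Agent.H54.G.W669.RK.LocF

set_option autoImplicit false

/-!
# The Frobenius estimate at one place
-/

namespace Pool.Agent.W669.RK

open Polynomial
open Pool.Agent.W237.RK
open Pool.Agent.H58P (Qb ht)

variable {p : ℕ} [Fact p.Prime]

theorem prod_close (ψ : Qb →+* PadicAlgCl p) (σ : Aut) (E : GF) (a n₁ : ℕ) (hn₁ : 0 < n₁)
    (Y : Finset Qb) (hco : ∀ j, (∏ y ∈ Y, (X - C y)).coeff j ∈ E) (β : Qb) (hβ : β ∈ Y)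
    (ρ : ℝ) (hρ0 : 0 < ρ) (hρ : ρ ^ n₁ = (p : ℝ)⁻¹)
    (hE : ∀ x ∈ E, ‖ψ x‖ ≤ 1 → ‖ψ (σ x - x ^ (p ^ a))‖ ^ n₁ ≤ (p : ℝ)⁻¹) :
    ∏ y ∈ Y, ‖ψ β ^ (p ^ a) - ψ (σ y)‖ ≤
      ρ * ∏ y ∈ Y, (max 1 ‖ψ β ^ (p ^ a)‖ * max 1 ‖ψ (σ y)‖) := by
  classical
  have hp : p.Prime := Fact.out
  have hpR : (0 : ℝ) < p := by exact_mod_cast hp.pos
  have hp1 : (p : ℝ)⁻¹ < 1 := inv_lt_one_of_one_lt₀ (by exact_mod_cast hp.one_lt)
  have hρ1 : ρ < 1 := by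
    by_contra hcon
    push Not at hcon
    have := one_le_pow₀ (n := n₁) hcon
    rw [hρ] at this
    linarith
  have hpρ : (p : ℝ)⁻¹ ≤ ρ := by
    rw [← hρ]
    calc ρ ^ n₁ ≤ ρ ^ 1 := pow_le_pow_of_le_one hρ0.le hρ1.le hn₁
      _ = ρ := pow_one _
  set P : Qb[X] := ∏ y ∈ Y, (X - C y) with hP
  set d := Y.card with hd
  have hPm : P.Monic := monic_prod_X_sub_C _ _
  have hPd : P.natDegree = d := natDegree_finsetProd_X_sub_C_eq_card Y (fun y => y)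
  have hPβ : P.eval β = 0 := by
    rw [hP, eval_prod]
    apply Finset.prod_eq_zero hβ
    simp
  obtain ⟨l0, hl0, hmax⟩ := Finset.exists_max_image (Finset.range (d + 1))
    (fun l => ‖ψ (P.coeff l)‖) ⟨0, by simp⟩
  set c0 := P.coeff l0 with hc0
  have hcd : ‖ψ (P.coeff d)‖ = 1 := by
    rw [← hPd, hPm.coeff_natDegree, map_one, norm_one]
  have hc0n : 1 ≤ ‖ψ c0‖ := by
    rw [← hcd]
    exact hmax d (by simp)
  have hψc0 : ψ c0 ≠ 0 := by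
    intro h
    rw [h, norm_zero] at hc0n
    linarith
  have hc00 : c0 ≠ 0 := fun h => hψc0 (by rw [h, map_zero])
  set b : PadicAlgCl p := ψ β with hb
  set Q := p ^ a with hQ
  set R : ℝ := (max 1 ‖b‖) ^ d with hR
  have hm1 : (1 : ℝ) ≤ max 1 ‖b‖ := le_max_left _ _
  have hR0 : 0 ≤ R := by positivity
  have hx : ∀ l, P.coeff l / c0 ∈ E := fun l => E.div_mem (hco l) (hco l0)
  have hxn : ∀ l ∈ Finset.range (d + 1), ‖ψ (P.coeff l / c0)‖ ≤ 1 := by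
    intro l hl
    rw [map_div₀, norm_div]
    exact div_le_one_of_le₀ (hmax l hl) (norm_nonneg _)
  -- the sum of the `Q`-th powers
  have hf : ∀ l ∈ Finset.range (d + 1), ‖ψ (P.coeff l / c0) * b ^ l‖ ≤ R := by
    intro l hl
    rw [norm_mul, norm_pow]
    have hld : l ≤ d := by rw [Finset.mem_range] at hl; omega
    calc _ ≤ 1 * (max 1 ‖b‖) ^ l := by
          apply mul_le_mul (hxn l hl) _ (by positivity) zero_le_one
          exact pow_le_pow_left₀ (norm_nonneg _) (le_max_right _ _) _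
      _ = (max 1 ‖b‖) ^ l := one_mul _
      _ ≤ R := pow_le_pow_right₀ hm1 hld
  have hsum0 : ∑ l ∈ Finset.range (d + 1), ψ (P.coeff l / c0) * b ^ l = 0 := by
    have h1 : ψ (P.eval β / c0) = 0 := by rw [hPβ, zero_div, map_zero]
    rw [eval_eq_sum_range, hPd, Finset.sum_div, map_sum] at h1
    rw [← h1]
    apply Finset.sum_congr rfl
    intro l _
    rw [map_div₀, map_div₀, map_mul, map_pow]
    ring
  have h1 := norm_sum_pow_pow_sub (Finset.range (d + 1)) (fun l => ψ (P.coeff l / c0) * b ^ l)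
    hR0 hf a
  rw [hsum0, zero_pow (pow_ne_zero _ hp.ne_zero), zero_sub, norm_neg] at h1
  have hRQ : R ^ Q = ∏ y ∈ Y, max 1 ‖b ^ Q‖ := by
    rw [Finset.prod_const, norm_pow, ← max_one_pow _ (norm_nonneg _), hR, ← pow_mul, ← pow_mul,
      mul_comm, hd]
  have h3 : ‖∑ l ∈ Finset.range (d + 1), ψ (σ (P.coeff l / c0)) * (b ^ Q) ^ l‖ ≤ ρ * R ^ Q := by
    have e : ∑ l ∈ Finset.range (d + 1), ψ (σ (P.coeff l / c0)) * (b ^ Q) ^ l =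
        ∑ l ∈ Finset.range (d + 1), (ψ (σ (P.coeff l / c0)) - ψ (P.coeff l / c0) ^ Q) * (b ^ Q) ^ l
        + ∑ l ∈ Finset.range (d + 1), (ψ (P.coeff l / c0) * b ^ l) ^ Q := by
      rw [← Finset.sum_add_distrib]
      apply Finset.sum_congr rfl
      intro l _
      ring
    rw [e]
    apply norm_add_le_of
    · apply norm_sum_le_of
      · positivity
      · intro l hl
        have hld : l ≤ d := by rw [Finset.mem_range] at hl; omega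
        have h4 := hE _ (hx l) (hxn l hl)
        rw [map_sub, map_pow, ← hρ] at h4
        have h5 : ‖ψ (σ (P.coeff l / c0)) - ψ (P.coeff l / c0) ^ Q‖ ≤ ρ :=
          le_of_pow_le_pow_left₀ hn₁.ne' hρ0.le h4
        rw [norm_mul, norm_pow, norm_pow]
        apply mul_le_mul h5 _ (by positivity) hρ0.le
        calc (‖b‖ ^ Q) ^ l ≤ ((max 1 ‖b‖) ^ Q) ^ l := by
              gcongr
              exact le_max_right _ _
          _ ≤ ((max 1 ‖b‖) ^ Q) ^ d := pow_le_pow_right₀ (one_le_pow₀ hm1) hld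
          _ = R ^ Q := by rw [hR, ← pow_mul, ← pow_mul, mul_comm]
    · refine h1.trans ?_
      gcongr
  have h4 : ∑ l ∈ Finset.range (d + 1), ψ (σ (P.coeff l / c0)) * (b ^ Q) ^ l =
      (ψ (σ c0))⁻¹ * ∏ y ∈ Y, (b ^ Q - ψ (σ y)) := by
    have e1 : ∏ y ∈ Y, (b ^ Q - ψ (σ y)) =
        (P.map (ψ.comp (σ : Qb →+* Qb))).eval (b ^ Q) := by
      rw [hP, Polynomial.map_prod, eval_prod]
      apply Finset.prod_congr rfl
      intro y _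
      simp
    rw [e1, eval_eq_sum_range, natDegree_map, hPd, Finset.mul_sum]
    apply Finset.sum_congr rfl
    intro l _
    rw [coeff_map, map_div₀, map_div₀, RingHom.comp_apply]
    simp only [RingHom.coe_coe]
    ring
  have h5 : ‖ψ (σ c0)‖ ≤ ∏ y ∈ Y, max 1 ‖ψ (σ y)‖ := by
    have h6 := norm_coeff_prod_le Y (fun y => ψ (σ y)) l0
    have e1 : ∏ y ∈ Y, (X - C (ψ (σ y))) = P.map (ψ.comp (σ : Qb →+* Qb)) := by
      rw [hP, Polynomial.map_prod]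
      apply Finset.prod_congr rfl
      intro y _
      simp
    rw [e1, coeff_map] at h6
    exact h6
  rw [h4, norm_mul, _root_.norm_inv, norm_prod] at h3
  have hσc0 : 0 < ‖ψ (σ c0)‖ := by
    rw [norm_pos_iff]
    intro h
    have h7 : σ c0 = 0 := ψ.injective (by rw [h, map_zero])
    exact hc00 (by simpa using h7)
  rw [Finset.prod_mul_distrib, ← hRQ]
  have h8 : ∏ y ∈ Y, ‖b ^ Q - ψ (σ y)‖ ≤ ‖ψ (σ c0)‖ * (ρ * R ^ Q) := by
    rw [inv_mul_le_iff₀ hσc0] at h3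
    exact h3
  calc _ ≤ ‖ψ (σ c0)‖ * (ρ * R ^ Q) := h8
    _ ≤ (∏ y ∈ Y, max 1 ‖ψ (σ y)‖) * (ρ * R ^ Q) := by gcongr
    _ = _ := by ring

theorem exists_close (ψ : Qb →+* PadicAlgCl p) (σ : Aut) (E : GF) (a n₁ D : ℕ) (hn₁ : 0 < n₁)
    (Y : Finset Qb) (hY : Y.card ≤ D)
    (hco : ∀ j, (∏ y ∈ Y, (X - C y)).coeff j ∈ E) (β : Qb) (hβ : β ∈ Y)
    (hE : ∀ x ∈ E, ‖ψ x‖ ≤ 1 → ‖ψ (σ x - x ^ (p ^ a))‖ ^ n₁ ≤ (p : ℝ)⁻¹) :
    ∃ y ∈ Y, ‖ψ β ^ (p ^ a) - ψ (σ y)‖ ^ (n₁ * D) ≤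
      (p : ℝ)⁻¹ * (max 1 ‖ψ β ^ (p ^ a)‖ * max 1 ‖ψ (σ y)‖) ^ (n₁ * D) := by
  have hp : p.Prime := Fact.out
  have hpR : (0 : ℝ) < p := by exact_mod_cast hp.pos
  have hp1 : (p : ℝ)⁻¹ < 1 := inv_lt_one_of_one_lt₀ (by exact_mod_cast hp.one_lt)
  have hp0 : (0 : ℝ) < (p : ℝ)⁻¹ := inv_pos.mpr hpR
  set ρ : ℝ := ((p : ℝ)⁻¹) ^ ((n₁ : ℝ)⁻¹) with hρdef
  have hρ0 : 0 < ρ := Real.rpow_pos_of_pos hp0 _
  have hρ : ρ ^ n₁ = (p : ℝ)⁻¹ := by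
    rw [hρdef, ← Real.rpow_natCast, ← Real.rpow_mul hp0.le, inv_mul_cancel₀ (by positivity),
      Real.rpow_one]
  have hmain := prod_close ψ σ E a n₁ hn₁ Y hco β hβ ρ hρ0 hρ hE
  by_contra hcon
  push Not at hcon
  have hmp : ∀ y ∈ Y, 0 < max 1 ‖ψ β ^ (p ^ a)‖ * max 1 ‖ψ (σ y)‖ := fun y _ => by positivity
  have h1 : (∏ y ∈ Y, ‖ψ β ^ (p ^ a) - ψ (σ y)‖) ^ (n₁ * D) ≤
      (ρ * ∏ y ∈ Y, (max 1 ‖ψ β ^ (p ^ a)‖ * max 1 ‖ψ (σ y)‖)) ^ (n₁ * D) :=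
    pow_le_pow_left₀ (Finset.prod_nonneg fun _ _ => norm_nonneg _) hmain _
  rw [mul_pow, ← Finset.prod_pow, ← Finset.prod_pow, pow_mul ρ, hρ] at h1
  have h2 : ∏ y ∈ Y, ((p : ℝ)⁻¹ * (max 1 ‖ψ β ^ (p ^ a)‖ * max 1 ‖ψ (σ y)‖) ^ (n₁ * D)) <
      ∏ y ∈ Y, ‖ψ β ^ (p ^ a) - ψ (σ y)‖ ^ (n₁ * D) := by
    apply Finset.prod_lt_prod_of_nonempty
    · intro y hy
      have := hmp y hy
      positivity
    · intro y hy
      exact hcon y hy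
    · exact ⟨β, hβ⟩
  rw [Finset.prod_mul_distrib, Finset.prod_const] at h2
  have h3 : ((p : ℝ)⁻¹) ^ D ≤ ((p : ℝ)⁻¹) ^ Y.card := pow_le_pow_of_le_one hp0.le hp1.le hY
  have h4 : 0 < ∏ y ∈ Y, (max 1 ‖ψ β ^ (p ^ a)‖ * max 1 ‖ψ (σ y)‖) ^ (n₁ * D) :=
    Finset.prod_pos fun y hy => pow_pos (hmp y hy) _
  have h5 := mul_le_mul_of_nonneg_right h3 h4.le
  linarith

end Pool.Agent.W669.RK
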